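import Pool.Agent.Lib.MP_b5021c_nt.IfaceE5
import Pool.Agent.Lib.MP_b5021c_nt.K.H25.Bch
import Pool.Agent.Lib.MP_b5021c_nt.B.H24.Lsp
import Pool.Agent.Lib.MP_b5021c_nt.E.H79.Kb5
import Pool.Agent.Lib.MP_b5021c_nt.B.H93.A2R

/-!
# Board b5, stage 3, row E5_ZB5: medium rays of real elements, load of type B
-/

namespace Pool.Agent.B5.H31.Zb

open Polynomial
open scoped LaurentPolynomial
open Pool.Agent.MP_b5021c_nt (Eis nz)
open Pool.Agent.B5.H25.Bch (bcR bcR_T bcR_C bcR_L emb_comp)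
open Pool.Agent.B5.H24 (shiftP loadB' mnB)
open Pool.Agent.B5.H79 (f0_norm)

/-- `T^n q` with `q(0) ≠ 0` determines `q`. -/
theorem laurent_unique {O : Type} [CommRing O] {n : ℤ} {p q : O[X]} (hp : p.coeff 0 ≠ 0)
    (hq : q.coeff 0 ≠ 0)
    (h : (toLaurent p : RO O) = LaurentPolynomial.T n * toLaurent q) : p = q := by
  rcases lt_trichotomy n 0 with hn | hn | hn
  · exfalso
    obtain ⟨m, hm⟩ : ∃ m : ℕ, n = -((m : ℤ) + 1) := ⟨(-n - 1).toNat, by omega⟩
    have h1 : (toLaurent (X ^ (m + 1) * p) : RO O) = toLaurent q := by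
      rw [map_mul, toLaurent_X_pow, h, ← mul_assoc, ← LaurentPolynomial.T_add, hm]
      push_cast
      rw [add_neg_cancel, LaurentPolynomial.T_zero, one_mul]
    have h2 := toLaurent_injective h1
    apply hq
    rw [← h2, coeff_zero_eq_eval_zero]
    simp
  · rw [hn, LaurentPolynomial.T_zero, one_mul] at h
    exact toLaurent_injective h
  · exfalso
    obtain ⟨m, hm⟩ : ∃ m : ℕ, n = (m : ℤ) + 1 := ⟨(n - 1).toNat, by omega⟩
    have h1 : (toLaurent p : RO O) = toLaurent (X ^ (m + 1) * q) := by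
      rw [map_mul, toLaurent_X_pow, h, hm]
      push_cast
      rfl
    have h2 := toLaurent_injective h1
    apply hp
    rw [h2, coeff_zero_eq_eval_zero]
    simp

theorem coeff_cast (p : ℤ[X]) (k : ℕ) :
    (p.map (Int.castRingHom Eis)).coeff k = ((p.coeff k : ℤ) : Eis) := by
  rw [coeff_map]; rfl

theorem emb_cast (a : ℤ) : Eis.emb ((a : ℤ) : Eis) = (a : ℂ) := by simp

theorem emb_int (a : ℤ) : (Coef.emb a : ℂ) = (a : ℂ) := rfl

/-- class `P` over `ℤ` from class `P` over the Eisenstein integers -/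
theorem classP_of_bc {θ : ℝ} {p : ℤ[X]} (h0 : p.coeff 0 ≠ 0)
    (h : ClassP θ (toLaurent (p.map (Int.castRingHom Eis)) : RO Eis)) :
    ClassP θ (toLaurent p : RO ℤ) := by
  obtain ⟨h1, n, q, hq, hq0, w, hw, hr⟩ := h
  have hp0 : (p.map (Int.castRingHom Eis)).coeff 0 ≠ 0 := by
    rw [coeff_cast]
    intro h2
    apply h0
    have h3 := congrArg Eis.emb h2
    rw [emb_cast, map_zero] at h3
    exact_mod_cast h3
  have hq0' : q.coeff 0 ≠ 0 := by
    intro h2
    rw [h2, map_zero, norm_zero] at hq0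
    exact zero_ne_one hq0
  have hpq := laurent_unique hp0 hq0' hq
  rw [← hpq] at hq0 hr
  refine ⟨h1, 0, p, by rw [LaurentPolynomial.T_zero, one_mul], ?_, w, hw, ?_⟩
  · rw [← hq0, coeff_map, ← RingHom.comp_apply, emb_comp]
  · rw [Polynomial.map_map, emb_comp] at hr
    exact hr

/-- `ClassP` is invariant under multiplication by `T^n`. -/
theorem shiftP' {θ : ℝ} (n : ℤ) {Q : RO ℤ} (h : ClassP θ Q) :
    ClassP θ (LaurentPolynomial.T n * Q) := by
  obtain ⟨h1, m, q, rfl, h2, h3⟩ := h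
  refine ⟨h1, n + m, q, ?_, h2, h3⟩
  rw [LaurentPolynomial.T_add, mul_assoc]

/-- `Zb5S` with, in addition, the gain at the load `e` itself after base change. -/
def Zb5xS : Prop := ∀ (θ : ℝ) (Q F : RO ℤ) (e : (RO ℤ)ˣ) (x : ℝ) (n : ℤ) (q f : ℤ[X])
  (s r : ℂ[X]) (T c : ℂ), 1000000 ≤ θ → Md θ Q F e x n q f s r T c →
    Gp θ (θ - 97 / 100) Q F e ∧ TyB (θ / 10 + 1) Q F e ∧
    (99 / 50 ≤ x →
      ∀ bc : RO ℤ →+* RO Eis, bc = AddMonoidAlgebra.mapRingHom ℤ (Int.castRingHom Eis) →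
        Gp θ (θ - 988 / 1000) (bc Q) (bc F) (Units.map (bc : RO ℤ →* RO Eis) e) ∧
        ∃ e₂ : (RO Eis)ˣ, Adj (Units.map (bc : RO ℤ →* RO Eis) e) e₂ ∧
          ‖mn ((e₂ : RO Eis) * bc F) (bc Q)‖ ≤ 1 / 4 ∧
          Gp θ (θ - 988 / 1000) (bc Q) (bc F) e₂) ∧
    ((∀ z : Circle, ‖evR z (Q + (e : RO ℤ) * F)‖ ≤ ‖evR z Q‖) →
      TyB 1 Q F e ∨
      ∀ bc : RO ℤ →+* RO Eis, bc = AddMonoidAlgebra.mapRingHom ℤ (Int.castRingHom Eis) →
        Gp θ (θ - 997 / 1000) (bc Q) (bc F) (Units.map (bc : RO ℤ →* RO Eis) e) ∧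
        ∃ e₂ : (RO Eis)ˣ, Adj (Units.map (bc : RO ℤ →* RO Eis) e) e₂ ∧
          ‖mn ((e₂ : RO Eis) * bc F) (bc Q)‖ ≤ 1 / 4 ∧ Gp θ (θ - 997 / 1000) (bc Q) (bc F) e₂)

/-- Row E5_ZB5, with the gain at `e`. -/
theorem zb5x (hLb : Lb5S) (hKs : Ks5S) (hPv : Pv5S) (hM : MepS) (hE : EvRS) : Zb5xS := by
  intro θ Q F e x n q f s r T c hθ hMd
  obtain ⟨hQ, hF, hd, hcT, hTi, hci, hx1, hx2⟩ := hMd
  have hθ0 : (0 : ℝ) < θ := by linarith
  have hcx : ‖c‖ = x := by
    have h1 := congrArg norm hcT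
    rw [norm_mul, Complex.norm_conj, hd.nT, norm_mul, Complex.norm_real, Complex.norm_real,
      Real.norm_of_nonneg hθ0.le, Real.norm_of_nonneg (by linarith : (0 : ℝ) ≤ x)] at h1
    have h2 : θ * (‖c‖ - x) = 0 := by linarith
    rcases mul_eq_zero.mp h2 with h3 | h3
    · linarith
    · linarith
  have hcT' : c * (starRingEnd ℂ) T = (θ : ℂ) * ((x : ℂ) + ((0 : ℝ) : ℂ) * Complex.I) := by
    rw [hcT]; simp
  obtain ⟨hL1, hL2, -⟩ := hLb θ _ _ s r T c x 0 hθ hd hcT'
  rw [hcx] at hL1 hL2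
  have hq0 : q.coeff 0 ≠ 0 := by
    intro h0
    have h1 := hd.q0
    rw [coeff_cast, h0, emb_cast] at h1
    simp at h1
  have hsum : Q + (e : RO ℤ) * F = LaurentPolynomial.T n * toLaurent (q + X * f) := by
    rw [hQ, hF, map_add, mul_add]
  have hmap : (q + X * f).map (Int.castRingHom Eis) =
      q.map (Int.castRingHom Eis) + X * f.map (Int.castRingHom Eis) := by
    rw [Polynomial.map_add, Polynomial.map_mul, map_X]
  have hback : ∀ θ' : ℝ, ClassP θ' (toLaurent (q.map (Int.castRingHom Eis) +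
      X * f.map (Int.castRingHom Eis)) : RO Eis) → ClassP θ' (Q + (e : RO ℤ) * F) := by
    intro θ' h
    rw [hsum]
    apply shiftP'
    apply classP_of_bc
    · rw [coeff_add, coeff_X_mul_zero, add_zero]
      exact hq0
    · rw [hmap]
      exact h
  obtain ⟨hs1, hf0n⟩ := f0_norm hd
  rw [coeff_cast, emb_cast] at hf0n
  have hh0 : ‖r.eval 0 / s.eval 0‖ ≤ 1 := by
    rw [norm_div, hs1, div_one]
    have := hd.h0
    rw [hs1] at this
    exact this
  have hTyB : ∀ a : ℝ, ‖((f.coeff 0 : ℤ) : ℂ)‖ ≤ a → TyB a Q F e := by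
    intro a ha
    refine ⟨n, q, f, hQ, hF, ?_, ?_, ?_⟩
    · have h1 := hd.q0
      rw [coeff_cast, emb_cast] at h1
      exact h1
    · have h1 := hd.root
      rw [Polynomial.map_map, show (Eis.emb.comp (Int.castRingHom Eis)) = (Coef.emb : ℤ →+* ℂ) from
        emb_comp] at h1
      unfold nz
      rw [h1]
      rfl
    · exact ha
  -- the adjacent load of type B
  have hadj : ∀ g : ℝ, 12 / 10 ≤ x → g + 1 / 10000 ≤ 1 / 2 * min x 2 →
      ∀ bc : RO ℤ →+* RO Eis, bc = AddMonoidAlgebra.mapRingHom ℤ (Int.castRingHom Eis) →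
        Gp θ (θ - g) (bc Q) (bc F) (Units.map (bc : RO ℤ →* RO Eis) e) ∧
        ∃ e₂ : (RO Eis)ˣ, Adj (Units.map (bc : RO ℤ →* RO Eis) e) e₂ ∧
          ‖mn ((e₂ : RO Eis) * bc F) (bc Q)‖ ≤ 1 / 4 ∧ Gp θ (θ - g) (bc Q) (bc F) e₂ := by
    intro g hx12 hg bc hbc
    have hbc' : bc = bcR := hbc
    subst hbc'
    refine ⟨?_, ?_⟩
    · obtain ⟨θ', h1, h2, h3⟩ := hL2 hx12 hx2
      refine ⟨θ', h1, ?_, ?_⟩
      · have h4 := h2 1 (by norm_num) le_rfl (by linarith)
        have h5 : 0 ≤ min x 2 := le_min (by linarith) (by norm_num)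
        linarith
      · have h4 : bcR Q + ((Units.map (bcR : RO ℤ →* RO Eis) e : (RO Eis)ˣ) : RO Eis) * bcR F =
            LaurentPolynomial.T n * toLaurent (q.map (Int.castRingHom Eis) +
              X * f.map (Int.castRingHom Eis)) := by
          have h5 : bcR Q + ((Units.map (bcR : RO ℤ →* RO Eis) e : (RO Eis)ˣ) : RO Eis) *
              bcR F = bcR (Q + (e : RO ℤ) * F) := by
            rw [map_add, map_mul]
            rfl
          rw [h5, hsum, map_mul, bcR_T, bcR_L, hmap]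
        rw [h4]
        exact shiftP _ _ _ h3
    -- the adjacent load
    set v : Eisˣ := (Pool.Agent.MP_b5021c_nt.Eis.g6_unit.unit)⁻¹ with hv
    have hgv : (Eis.g6 : Eis) * (v : Eis) = 1 := by
      rw [hv]
      exact Pool.Agent.MP_b5021c_nt.Eis.g6_unit.mul_val_inv
    have hnv : ‖Eis.emb (v : Eis)‖ = 1 := Eis.norm_emb_unit v.isUnit
    have hng : ‖Eis.emb Eis.g6‖ = 1 := Eis.norm_emb_unit Eis.g6_unit
    have hgre : (Eis.emb Eis.g6).re = 1 / 2 := by
      have := Eis.g6_re 1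
      rw [mul_one] at this
      rw [this]
      simp
    have hvre : (Eis.emb (v : Eis)).re = 1 / 2 := by
      have h1 : Eis.emb (v : Eis) = (starRingEnd ℂ) (Eis.emb Eis.g6) := by
        have h2 : Eis.emb Eis.g6 * Eis.emb (v : Eis) = 1 := by
          rw [← map_mul, hgv, map_one]
        have h3 : Eis.emb Eis.g6 * (starRingEnd ℂ) (Eis.emb Eis.g6) = 1 := by
          rw [Complex.mul_conj, Complex.normSq_eq_norm_sq, hng]
          norm_num
        have h4 : Eis.emb Eis.g6 ≠ 0 := by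
          intro h5
          rw [h5, norm_zero] at hng
          exact zero_ne_one hng
        exact mul_left_cancel₀ h4 (h2.trans h3.symm)
      rw [h1, Complex.conj_re]
      exact hgre
    set cu : (RO Eis)ˣ := Units.map (LaurentPolynomial.C : Eis →+* RO Eis).toMonoidHom v with hcu
    have hcuv : (cu : RO Eis) = LaurentPolynomial.C (v : Eis) := rfl
    have hbF : (((cu * Units.map (bcR : RO ℤ →* RO Eis) e : (RO Eis)ˣ)) : RO Eis) * bcR F =
        LaurentPolynomial.T n *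
          toLaurent (X * (C (v : Eis) * f.map (Int.castRingHom Eis))) := by
      have h1 : bcR ((e : RO ℤ) * F) = LaurentPolynomial.T n *
          toLaurent (X * f.map (Int.castRingHom Eis)) := by
        rw [hF, map_mul, bcR_T, bcR_L, Polynomial.map_mul, map_X]
      have h2 : (((cu * Units.map (bcR : RO ℤ →* RO Eis) e : (RO Eis)ˣ)) : RO Eis) =
          LaurentPolynomial.C (v : Eis) * bcR (e : RO ℤ) := by
        rw [Units.val_mul, hcuv]
        rfl
      rw [h2, mul_assoc, ← map_mul, h1]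
      have h3 : (X * (C (v : Eis) * f.map (Int.castRingHom Eis))) =
          C (v : Eis) * (X * f.map (Int.castRingHom Eis)) := by ring
      rw [h3, map_mul (toLaurent : Eis[X] →+* RO Eis) (C (v : Eis)), toLaurent_C]
      ring
    have hbQ : bcR Q = LaurentPolynomial.T n * toLaurent (q.map (Int.castRingHom Eis)) := by
      rw [hQ, map_mul, bcR_T, bcR_L]
    have hd2 := hPv θ _ _ s r T c v hd
    have hnc2 : ‖Eis.emb (v : Eis) * c‖ = x := by rw [norm_mul, hnv, one_mul, hcx]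
    refine ⟨cu * Units.map (bcR : RO ℤ →* RO Eis) e, ⟨Eis.g6, ?_, hng, hgre⟩, ?_, ?_⟩
    · have h2 : (((cu * Units.map (bcR : RO ℤ →* RO Eis) e : (RO Eis)ˣ)) : RO Eis) =
          LaurentPolynomial.C (v : Eis) * bcR (e : RO ℤ) := by
        rw [Units.val_mul, hcuv]
        rfl
      rw [h2, ← mul_assoc, ← map_mul, hgv, map_one, one_mul]
      rfl
    · rw [hbF, hbQ]
      have h1 := mnB hE hM n n θ _ _ s (C (Eis.emb (v : Eis)) * r) T (Eis.emb (v : Eis) * c) hd2 1
      rw [loadB', hnc2] at h1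
      have h2 : (C (((1 : Eisˣ)) : Eis) * X * (C (v : Eis) * f.map (Int.castRingHom Eis))) =
          X * (C (v : Eis) * f.map (Int.castRingHom Eis)) := by
        rw [Units.val_one, map_one, one_mul]
      rw [h2] at h1
      rw [h1, div_le_iff₀ hθ0]
      linarith
    · have hxy : (Eis.emb (v : Eis) * c) * (starRingEnd ℂ) T = (θ : ℂ) *
          (((x / 2 : ℝ) : ℂ) + (((Eis.emb (v : Eis)).im * x : ℝ) : ℂ) * Complex.I) := by
        rw [mul_assoc, hcT]
        have h1 : Eis.emb (v : Eis) = ((1 / 2 : ℝ) : ℂ) +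
            (((Eis.emb (v : Eis)).im : ℝ) : ℂ) * Complex.I := by
          rw [← hvre]
          exact (Complex.re_add_im _).symm
        rw [h1]
        apply Complex.ext
        · simp
          ring
        · simp
          ring
      obtain ⟨-, hL, -⟩ := hLb θ _ _ s _ T _ _ _ hθ hd2 hxy
      rw [hnc2] at hL
      obtain ⟨θ', h1, h2, h3⟩ := hL (by linarith) hx2
      refine ⟨θ', h1, ?_, ?_⟩
      · have h4 := h2 (1 / 2) le_rfl (by norm_num) (by linarith)
        linarith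
      · rw [hbF, hbQ, ← mul_add, ← map_add]
        exact shiftP _ _ _ h3
  refine ⟨?_, ?_, ?_, ?_⟩
  · -- the gain
    rcases le_or_gt x (12 / 10) with hx | hx
    · obtain ⟨θ', h1, h2, -, h3⟩ := hL1 hx
      refine ⟨θ', h1, ?_, hback θ' h3⟩
      have : 2 / θ ≤ 2 / 1000000 := by
        apply div_le_div_of_nonneg_left <;> linarith
      linarith
    · obtain ⟨θ', h1, h2, h3⟩ := hL2 hx.le hx2
      refine ⟨θ', h1, ?_, hback θ' h3⟩
      have h4 := h2 1 (by norm_num) le_rfl (by linarith)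
      have h5 : 12 / 10 ≤ min x 2 := le_min hx.le (by norm_num)
      linarith
  · -- the lowest coefficient
    apply hTyB
    rw [hf0n]
    calc _ ≤ ‖c‖ + ‖r.eval 0 / s.eval 0‖ := norm_add_le _ _
      _ ≤ _ := by rw [hcx]; linarith
  · intro hx
    have h5 : 99 / 50 ≤ min x 2 := le_min hx (by norm_num)
    exact hadj _ (by linarith) (by linarith)
  · intro hle
    have hle' : ∀ z : ℂ, ‖z‖ = 1 →
        ‖((q.map (Int.castRingHom Eis) + X * f.map (Int.castRingHom Eis)).map Eis.emb).eval z‖ ≤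
          ‖((q.map (Int.castRingHom Eis)).map Eis.emb).eval z‖ := by
      intro z hz
      have key : ∀ (w : Circle) (p : ℤ[X]), ‖evR w
          (LaurentPolynomial.T n * toLaurent p : RO ℤ)‖ =
          ‖((p.map (Int.castRingHom Eis)).map Eis.emb).eval (w : ℂ)‖ := by
        intro w p
        rw [Polynomial.map_map, show (Eis.emb.comp (Int.castRingHom Eis)) =
          (Coef.emb : ℤ →+* ℂ) from emb_comp, map_mul, H93.evR_T, H93.evR_toLaurent, norm_mul,
          norm_zpow, Circle.norm_coe, one_zpow, one_mul]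
      obtain ⟨w, rfl⟩ : ∃ w : Circle, (w : ℂ) = z :=
        ⟨⟨z, mem_sphere_zero_iff_norm.mpr hz⟩, rfl⟩
      have h1 := hle w
      rw [hsum, hQ, key, key, hmap] at h1
      exact h1
    obtain ⟨hk1, -⟩ := hKs θ _ _ s r T c hθ hd hle'
    rw [hcx, hs1, one_pow, mul_one] at hk1
    rcases le_or_gt x (1995 / 1000) with hx | hx
    · left
      apply hTyB
      have h2 : ‖r.eval 0‖ ≤ 2 / 1000 := by
        have h3 : 2 * x / θ ≤ (2 / 1000) ^ 2 := by
          rw [div_le_iff₀ hθ0]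
          nlinarith
        by_contra hcon
        push Not at hcon
        nlinarith
      have h3 : ‖((f.coeff 0 : ℤ) : ℂ)‖ < 2 := by
        rw [hf0n]
        calc _ ≤ ‖c‖ + ‖r.eval 0 / s.eval 0‖ := norm_add_le _ _
          _ ≤ x + 2 / 1000 := by
            rw [hcx, norm_div, hs1, div_one]; linarith
          _ < 2 := by linarith
      rw [Complex.norm_intCast] at h3 ⊢
      have h4 : |f.coeff 0| < 2 := by exact_mod_cast h3
      have h5 : |f.coeff 0| ≤ 1 := by omega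
      exact_mod_cast h5
    · right
      have h5 : 1995 / 1000 ≤ min x 2 := le_min hx.le (by norm_num)
      exact hadj _ (by linarith) (by linarith)

/-- Row E5_ZB5. -/
theorem zb5 (hLb : Lb5S) (hKs : Ks5S) (hPv : Pv5S) (hM : MepS) (hE : EvRS) : Zb5S := by
  intro θ Q F e x n q f s r T c hθ hMd
  obtain ⟨h1, h2, h3, h4⟩ := zb5x hLb hKs hPv hM hE θ Q F e x n q f s r T c hθ hMd
  exact ⟨h1, h2, fun hx bc hbc => (h3 hx bc hbc).2,
    fun hle => (h4 hle).imp_right fun h5 bc hbc => (h5 bc hbc).2⟩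

end Pool.Agent.B5.H31.Zb
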