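import Pool.Agent.Lib.MP_b5021c_nt.IfaceAM

/-!
# Board b5, chapter AM: row NBR (helper31)

Drop one: every ray of `C` has exactly two neighbours, of opposite signs.
-/

namespace Pool.Agent.B5.H31.Nb

open scoped LaurentPolynomial

variable {O : Type} [CommRing O] [IsDomain O] [IsPrincipalIdealRing O] [Coef O] {P : Type}
  [Fintype P] [DecidableEq P] {L : Type} [AddCommGroup L] [Module.Free ℤ L] [Module.Finite ℤ L]

/-- The sum of two mutual rays is an exponent. -/
theorem sum_mem (mco : McoS) {phi : L →+ (P → ℤ)} {D : AO O L} {S0 S1 : L} {e0 e1 : (RO O)ˣ}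
    (dd : DD phi D) (m : Mut D S0 S1 e0 e1) : S0 + S1 ∈ supp D := by
  obtain ⟨-, -, h, -⟩ := mco O P L phi D S0 S1 e0 e1 dd.inj dd.bin m
  intro h0
  rw [h0, mul_zero] at h
  have h1 : (e0 : RO O) * D.coeff S0 = 0 := by
    rw [eq_comm, neg_eq_zero] at h
    exact h
  rcases mul_eq_zero.mp h1 with h2 | h2
  · exact e0.ne_zero h2
  · exact m.r0.1 h2

/-- Two different rays with the value one are impossible. -/
theorem two (one : OneKS) (f1 : F1S) (mco : McoS) (inj1 : Inj1S) {phi : L →+ (P → ℤ)}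
    {D : AO O L} {eta : L → (RO O)ˣ} {θ : ℝ} {C : Set L} (hM : MinD θ phi D)
    (hK : 2 ≤ Module.finrank ℤ L) (hC : ASet phi D eta 1 C) {S : L} (hS : S ∈ C) (mu : L →+ ℤ)
    (hmu : ∀ a, a ∈ US (eta S) S D ↔ mu a = 0)
    (hv : ∀ a ∈ supp D, mu a = 0 ∨ mu a = 1 ∨ mu a = -1) {R R' : L} (hR : Ray D R)
    (hR' : Ray D R') (h1 : mu R = 1) (h1' : mu R' = 1) : R = R' := by
  by_contra hne
  have dd := hM.fp.dd
  have hRU : R ∉ US (eta S) S D := by
    rw [hmu, h1]
    exact one_ne_zero
  have hRU' : R' ∉ US (eta S) S D := by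
    rw [hmu, h1']
    exact one_ne_zero
  obtain ⟨hRC, mR⟩ := hC.mtl S hS R hR hRU
  obtain ⟨hRC', mR'⟩ := hC.mtl S hS R' hR' hRU'
  have hmS : mu S = 0 := by
    rw [← hmu]
    refine ⟨1, one_ne_zero, ?_⟩
    rw [one_smul]
    exact Submodule.subset_span (Set.mem_insert _ _)
  obtain ⟨nu, hnu, -, -, -⟩ := one O P L phi D R (eta R) θ hM hK hR (hC.v0 R hRC) (hC.ns R hRC)
    (hC.dr R hRC)
  have ha : S + R' ∈ supp D := sum_mem mco dd mR'
  by_cases hna : nu (S + R') = 0
  · have hnS : nu S ≠ 0 := by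
      rw [Ne, ← hnu]
      exact mR.m1
    have hnR' : nu R' ≠ 0 := by
      intro h
      rw [map_add, h, add_zero] at hna
      exact hnS hna
    have hU : R' ∉ US (eta R) R D := by
      rw [hnu]
      exact hnR'
    obtain ⟨-, m⟩ := hC.mtl R hRC R' hR' hU
    have := hv _ (sum_mem mco dd m)
    rw [map_add, h1, h1'] at this
    omega
  · have haU : S + R' ∉ US (eta R) R D := by
      rw [hnu]
      exact hna
    obtain ⟨hp, hd⟩ := f1 O P L phi D R (eta R) dd.inj dd.bin (dd.bin R hR.1) hR.2.1 (S + R') haU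
    by_cases hdis : ∀ i, phi (S + R') i = 0 ∨ phi R i = 0
    · have h := hd hdis
      have hne0 : D.coeff (S + R' + R) ≠ 0 := by
        intro h0
        rw [h0, mul_zero, add_zero] at h
        exact ha h
      have := hv _ hne0
      rw [map_add, map_add, h1, h1', hmS] at this
      omega
    · push Not at hdis
      obtain ⟨i, hi1, hi2⟩ := hdis
      have hi1' : phi (S + R') i = 1 := ((dd.bin _ ha) i).resolve_left hi1
      have hi2' : phi R i = 1 := ((dd.bin _ hR.1) i).resolve_left hi2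
      by_cases hq : ∃ j, phi (S + R') j = 0 ∧ phi R j = 1
      · exact ha (hp ⟨i, hi1', hi2'⟩ hq)
      · push Not at hq
        have hdisj := (mco O P L phi D S R (eta S) (eta R) dd.inj dd.bin mR).1
        obtain ⟨k, hk⟩ := (inj1 O P L phi D hM.fp R' hR').1 R (by
          intro j hj
          by_contra hRj
          have hRj1 : phi R j = 1 := ((dd.bin _ hR.1) j).resolve_left hRj
          have hSj : phi S j = 0 := (hdisj j).resolve_right hRj
          apply hq j _ hRj1
          rw [map_add, Pi.add_apply, hSj, hj, add_zero])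
        have hk1 : k = 1 := by
          have := congrArg mu hk
          rw [map_zsmul, h1, h1', smul_eq_mul, mul_one] at this
          exact this.symm
        rw [hk1, one_smul] at hk
        exact hne hk

/-- (AM_NBR) -/
theorem nbr_st (one : OneKS) (f1 : F1S) (mco : McoS) (inj1 : Inj1S) : NbrS := by
  intro O _ _ _ _ P L _ _ _ _ _ phi D eta θ C hM hK hC S hS
  obtain ⟨mu, hmu, ⟨R, hR, h1⟩, ⟨T, hT, hm1⟩, hv⟩ := one O P L phi D S (eta S) θ hM hK
    (hC.ray S hS) (hC.v0 S hS) (hC.ns S hS) (hC.dr S hS)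
  have hRU : R ∉ US (eta S) S D := by
    rw [hmu, h1]
    exact one_ne_zero
  have hTU : T ∉ US (eta S) S D := by
    rw [hmu, hm1]
    decide
  refine ⟨mu, R, T, hmu, (hC.mtl S hS R hR hRU).1, (hC.mtl S hS T hT hTU).1, h1, hm1, ?_, hv⟩
  intro T' hT' hne hne'
  rcases hv T' hT'.1 with h | h | h
  · exact h
  · exact absurd (two one f1 mco inj1 hM hK hC hS mu hmu hv hT' hR h h1) hne
  · refine absurd (two one f1 mco inj1 hM hK hC hS (-mu) ?_ ?_ hT' hT ?_ ?_) hne'
    · intro a
      rw [hmu, AddMonoidHom.neg_apply, neg_eq_zero]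
    · intro a ha
      rw [AddMonoidHom.neg_apply]
      rcases hv a ha with h | h | h <;> omega
    · rw [AddMonoidHom.neg_apply, h, neg_neg]
    · rw [AddMonoidHom.neg_apply, hm1, neg_neg]

end Pool.Agent.B5.H31.Nb
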